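import Pool.Agent.Lib.MP_ec92e0_co.Main

set_option autoImplicit false

namespace Pool.Agent.Results.MP_ec92e0_co.ConnectedCounterexample

open Filter

/-- `G` does not contain `H`, and adding any missing edge to `G` creates a copy of `H`. -/
def Saturated {α β : Type} (H : SimpleGraph α) (G : SimpleGraph β) : Prop :=
  H.Free G ∧ ∀ u v : β, u ≠ v → ¬ G.Adj u v → H.IsContained (G ⊔ SimpleGraph.edge u v)

open Lib.MP_ec92e0_co in
theorem cont_iff {W : Type} (G : SimpleGraph W) : H.IsContained G ↔ Cont G :=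
  ⟨fun ⟨c⟩ => ⟨c.toHom, c.injective', fun _ _ h => c.toHom.map_rel' h⟩,
    fun ⟨f, hi, hf⟩ => ⟨⟨⟨f, fun h => hf _ _ h⟩, hi⟩⟩⟩

open Lib.MP_ec92e0_co in
theorem sat_iff {W : Type} (G : SimpleGraph W) (u v : W) (huv : u ≠ v) :
    H.IsContained (G ⊔ SimpleGraph.edge u v) ↔ SatAt G u v := by
  rw [cont_iff]
  refine exists_congr fun f => and_congr_right fun _ => forall_congr' fun a =>
    forall_congr' fun b => forall_congr' fun _ => ?_
  rw [SimpleGraph.sup_adj, SimpleGraph.edge_adj]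
  refine or_congr_right ⟨fun h => h.1, fun h => ⟨h, ?_⟩⟩
  rcases h with ⟨h1, h2⟩ | ⟨h1, h2⟩
  · rw [h1, h2]; exact huv
  · rw [h1, h2]; exact huv.symm

open Lib.MP_ec92e0_co in
theorem reach (a b : V) (h : M a.1 b.1 = true) : H.Reachable a b := by
  by_cases e : a = b
  · rw [e]
  · exact SimpleGraph.Adj.reachable ((H_adj a b).2 ⟨e, h⟩)

open Lib.MP_ec92e0_co in
theorem conn : H.Connected := by
  have k : ∀ c : Fin 14, M 1 c = true ∨ M 4 c = true ∨ M 6 c = true ∨ M 9 c = true := by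
    decide +kernel
  let r : V := ⟨6, ⟨0, by decide⟩⟩
  have hr : ∀ v : V, H.Reachable r v := by
    intro v
    rcases k v.1 with h | h | h | h
    · exact (reach r ⟨1, ⟨0, by decide⟩⟩ (by decide)).trans (reach _ v h)
    · exact (reach r ⟨4, ⟨0, by decide⟩⟩ (by decide)).trans (reach _ v h)
    · exact reach r v h
    · exact (reach r ⟨9, ⟨0, by decide⟩⟩ (by decide)).trans (reach _ v h)
  have : Nonempty V := ⟨r⟩
  exact ⟨fun u v => (hr u).symm.trans (hr v)⟩

open Lib.MP_ec92e0_co in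
theorem card_V : Fintype.card V = 468 := by
  rw [Fintype.card_sigma]
  simp only [Fintype.card_fin]
  decide +kernel

open Lib.MP_ec92e0_co in
theorem result : ∃ (H : SimpleGraph (Fin 468)) (sat : ℕ → ℕ),
    H.Connected ∧ H.edgeSet.Nonempty ∧
    (∀ n : ℕ, IsLeast {k : ℕ | ∃ G : SimpleGraph (Fin n), Saturated H G ∧ G.edgeSet.ncard = k}
      (sat n)) ∧
    liminf (fun n : ℕ => (((sat n : ℝ) / (n : ℝ) : ℝ) : EReal)) atTop ≤ ((131 / 2 : ℝ) : EReal) ∧
    ((131001 / 2000 : ℝ) : EReal) ≤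
      limsup (fun n : ℕ => (((sat n : ℝ) / (n : ℝ) : ℝ) : EReal)) atTop ∧
    ¬ ∃ L : ℝ, Tendsto (fun n : ℕ => (sat n : ℝ) / (n : ℝ)) atTop (nhds L) := by
  let e : Fin 468 ≃ V := (Fintype.equivFinOfCardEq card_V).symm
  let i : H.comap e ≃g H := SimpleGraph.Iso.comap e H
  have hs : ∀ n : ℕ, {k : ℕ | ∃ G : SimpleGraph (Fin n), Saturated (H.comap e) G ∧
      G.edgeSet.ncard = k} = satSet n := by
    intro n
    ext k
    refine exists_congr fun G => ?_
    rw [Saturated, SimpleGraph.free_congr_left i, SimpleGraph.Free, cont_iff, and_assoc]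
    refine and_congr_right fun _ => and_congr_left' (forall_congr' fun u => forall_congr' fun v =>
      forall_congr' fun huv => forall_congr' fun _ => ?_)
    rw [SimpleGraph.isContained_congr_left i, sat_iff G u v huv]
  have t1 : Tendsto (fun t : ℕ => 16 + 100 * t) atTop atTop :=
    tendsto_atTop_mono (fun t => by show t ≤ _; omega) tendsto_id
  have t2 : Tendsto (fun t : ℕ => 17 + 100 * t) atTop atTop :=
    tendsto_atTop_mono (fun t => by show t ≤ _; omega) tendsto_id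
  refine ⟨H.comap e, fun n => sInf (satSet n), i.connected_iff.2 conn,
    ⟨s(e.symm ⟨2, ⟨0, by decide⟩⟩, e.symm ⟨3, ⟨0, by decide⟩⟩), ?_⟩, fun n => ?_, ?_, ?_,
    fun ⟨L, hL⟩ => not_tendsto L hL⟩
  · rw [SimpleGraph.mem_edgeSet, SimpleGraph.comap_adj, e.apply_symm_apply, e.apply_symm_apply]
    exact H_edge
  · rw [hs]
    exact ⟨Nat.sInf_mem (satSet_nonempty n), fun _ h => Nat.sInf_le h⟩
  · refine liminf_le_of_frequently_le' (t1.frequently (Eventually.frequently ?_))
    filter_upwards [eventually_ge_atTop 5] with t ht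
    have e1 : ((2 * sInf (satSet (16 + 100 * t)) : ℕ) : ℝ) ≤ ((131 * (16 + 100 * t) : ℕ) : ℝ) :=
      Nat.cast_le.2 (upper t ht)
    have e2 : (0 : ℝ) < ((16 + 100 * t : ℕ) : ℝ) := Nat.cast_pos.2 (by omega)
    rw [EReal.coe_le_coe_iff, div_le_iff₀ e2]
    rw [Nat.cast_mul, Nat.cast_mul] at e1
    simp only [Nat.cast_ofNat] at e1
    linarith
  · refine le_limsup_of_frequently_le' (t2.frequently (Eventually.frequently ?_))
    filter_upwards [eventually_ge_atTop (10 ^ 22)] with t ht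
    have e1 : ((131001 * (17 + 100 * t) : ℕ) : ℝ) ≤
        ((2000 * sInf (satSet (17 + 100 * t)) : ℕ) : ℝ) :=
      Nat.cast_le.2 (lower t ht).le
    have e2 : (0 : ℝ) < ((17 + 100 * t : ℕ) : ℝ) := Nat.cast_pos.2 (by omega)
    rw [EReal.coe_le_coe_iff, le_div_iff₀ e2]
    rw [Nat.cast_mul, Nat.cast_mul] at e1
    simp only [Nat.cast_ofNat] at e1
    linarith

end Pool.Agent.Results.MP_ec92e0_co.ConnectedCounterexample
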