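import Pool.Agent.Lib.MP_ec92e0_co.Limit

set_option autoImplicit false

namespace Pool.Agent.Results.MP_ec92e0_co.TreesDiamFour

/-- The ratio sat(n,H)/n converges for every tree H of diameter at most four. -/
theorem result :
    ∀ (m : ℕ) (H : SimpleGraph (Fin m)), H.IsTree → H.ediam ≤ 4 → H.edgeSet.Nonempty →
      ∃ L : ℝ, Filter.Tendsto
        (fun n : ℕ => ((sInf {k : ℕ | ∃ G : SimpleGraph (Fin n),
            (¬ ∃ f : Fin m → Fin n, Function.Injective f ∧
                ∀ a b : Fin m, H.Adj a b → G.Adj (f a) (f b)) ∧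
            (∀ u v : Fin n, u ≠ v → ¬ G.Adj u v →
              ∃ f : Fin m → Fin n, Function.Injective f ∧
                ∀ a b : Fin m, H.Adj a b →
                  (G.Adj (f a) (f b) ∨ (f a = u ∧ f b = v) ∨ (f a = v ∧ f b = u))) ∧
            G.edgeSet.ncard = k} : ℕ) : ℝ) / (n : ℝ))
        Filter.atTop (nhds L) := by
  intro m H hT hd hH
  simpa only [Pool.Agent.Lib.MP_ec92e0_co.sat, Pool.Agent.Lib.MP_ec92e0_co.Sat,
    Pool.Agent.Lib.MP_ec92e0_co.Cont, Pool.Agent.Lib.MP_ec92e0_co.Creates, and_assoc] using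
    Pool.Agent.Lib.MP_ec92e0_co.main hT hd hH

end Pool.Agent.Results.MP_ec92e0_co.TreesDiamFour
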